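import Pool.Agent.helper35.FGN.Spec

set_option autoImplicit false

namespace Pool.Agent.FGN

open Matrix Pool.Agent.H48SL Pool.Agent.UG

theorem DEGR_sub {n : ℕ} (u : SLZ n) : ((u.transpose : SLZ n) : Matrix (Fin n) (Fin n) ℤ) - 1 = ((u : Matrix (Fin n) (Fin n) ℤ) - 1)ᵀ := by
  rw [Matrix.SpecialLinearGroup.coe_transpose, Matrix.transpose_sub, Matrix.transpose_one]

theorem DEGR_qg {n : ℕ} (u : SLZ n) : qg (u.transpose : SLZ n) = (qg u)ᵀ := by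
  ext i j
  rw [qg_apply, Matrix.transpose_apply, qg_apply, Matrix.SpecialLinearGroup.coe_transpose, Matrix.transpose_apply]

theorem DEGR_U3 {n : ℕ} (u : SLZ n) (h : U3 u) : U3 u.transpose := by
  obtain ⟨h1, h2, h3⟩ := h
  refine ⟨?_, ?_, ?_⟩
  · rw [DEGR_sub, ← Matrix.transpose_pow, h1, Matrix.transpose_zero]
  · rw [DEGR_sub, ← Matrix.transpose_pow]
    intro h
    apply h2
    rw [← Matrix.transpose_transpose ((((u : Matrix (Fin n) (Fin n) ℤ) - 1) ^ 2)), h, Matrix.transpose_zero]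
  · rw [DEGR_qg]
    have e : (qg u)ᵀ - 1 = (qg u - 1)ᵀ := by rw [Matrix.transpose_sub, Matrix.transpose_one]
    rw [e, Matrix.rank_transpose, h3]

theorem DEGR_FixV {n : ℕ} (u : SLZ n) : FixV u.transpose = FixR u := by
  ext v
  show ((u.transpose : SLZ n) : Matrix (Fin n) (Fin n) ℤ) *ᵥ v = v ↔ v ᵥ* (u : Matrix (Fin n) (Fin n) ℤ) = v
  rw [Matrix.SpecialLinearGroup.coe_transpose, Matrix.mulVec_transpose]

theorem DEGR_FixR {n : ℕ} (u : SLZ n) : FixR u.transpose = FixV u := by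
  ext v
  show v ᵥ* ((u.transpose : SLZ n) : Matrix (Fin n) (Fin n) ℤ) = v ↔ (u : Matrix (Fin n) (Fin n) ℤ) *ᵥ v = v
  rw [Matrix.SpecialLinearGroup.coe_transpose, Matrix.vecMul_transpose]

theorem DEGR_ImV {n : ℕ} (u : SLZ n) : ImV u.transpose = ImR u := by
  ext x
  show (∃ k : ℤ, k ≠ 0 ∧ ∃ y : Fin n → ℤ, k • x = ((((u.transpose : SLZ n) : Matrix (Fin n) (Fin n) ℤ) - 1) ^ 2) *ᵥ y) ↔
    ∃ k : ℤ, k ≠ 0 ∧ ∃ y : Fin n → ℤ, k • x = y ᵥ* (((u : Matrix (Fin n) (Fin n) ℤ) - 1) ^ 2)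
  rw [DEGR_sub, ← Matrix.transpose_pow]
  simp only [Matrix.mulVec_transpose]

theorem DEGR_ImR {n : ℕ} (u : SLZ n) : ImR u.transpose = ImV u := by
  ext x
  show (∃ k : ℤ, k ≠ 0 ∧ ∃ y : Fin n → ℤ, k • x = y ᵥ* ((((u.transpose : SLZ n) : Matrix (Fin n) (Fin n) ℤ) - 1) ^ 2)) ↔
    ∃ k : ℤ, k ≠ 0 ∧ ∃ y : Fin n → ℤ, k • x = (((u : Matrix (Fin n) (Fin n) ℤ) - 1) ^ 2) *ᵥ y
  rw [DEGR_sub, ← Matrix.transpose_pow]
  simp only [Matrix.vecMul_transpose]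

theorem DEGR_tt {n : ℕ} (u : SLZ n) : u.transpose.transpose = u := by
  apply Subtype.ext
  rw [Matrix.SpecialLinearGroup.coe_transpose, Matrix.SpecialLinearGroup.coe_transpose, Matrix.transpose_transpose]

theorem DEGR (hTRP : Pool.Agent.UG.TRP_stmt) (hDEGL : DEGL_stmt) : DEGR_stmt := by
  intro n hn H hH u hu u' hu' h3 h3' hR hI hF
  obtain ⟨H', hZ, hmem, hfin⟩ := hTRP n H hH
  apply hfin
  refine hDEGL n hn H' hZ u.transpose ?_ u'.transpose ?_ (DEGR_U3 u h3) (DEGR_U3 u' h3') ⟨?_, ?_⟩ ?_ ?_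
  · rw [hmem, DEGR_tt]
    exact hu
  · rw [hmem, DEGR_tt]
    exact hu'
  · rw [DEGR_FixV, DEGR_FixV]
    exact hR.1
  · rw [DEGR_ImV, DEGR_ImV]
    exact hR.2
  · rw [DEGR_ImR, DEGR_ImR]
    exact hI
  · rw [DEGR_FixR, DEGR_FixR]
    exact hF

end Pool.Agent.FGN
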